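import Pool.Agent.helper55.ZI.Spec2

set_option autoImplicit false

namespace Pool.Agent.helper68.ZI

open Pool.Agent.ZI

universe u

theorem CLO (hOPN : OPN_stmt.{u}) : CLO_stmt.{u} := by
  intro R _ S hS G N hN hkill
  refine ⟨hN, ?_⟩
  intro p hp hin
  obtain ⟨ε, hε⟩ := hOPN R S hS p.1 p.2.1 p.2.2
  have hmem : ε ∈ VanIdeal (Closed R G) := by
    intro M hM x
    by_contra hne
    exact hM.2 p hp ((hε M).2 ⟨x, hne⟩)
  obtain ⟨y, hy⟩ := (hε N).1 hin
  exact hy (hkill ε hmem y)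

end Pool.Agent.helper68.ZI
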